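import Pool.Agent.P8H94.PG.Step2
import Pool.Agent.P8H89.PG.Gr2

/-!
# PG/STEP
-/

set_option autoImplicit false

namespace Pool.Agent.P8H94.PG

open scoped commutatorElement
open Pool.Agent.Helper611.PcGrp Pool.Agent.Helper611.PcFit Pool.Agent.P8H24.PG
open Pool.Agent.P8H89.PG (gr2)

theorem nil_of_inj {A B : Type} [Group A] [Group B] (f : A →* B) (hf : Function.Injective f)
    (h : Group.IsNilpotent B) : Group.IsNilpotent A :=
  haveI := h
  Subgroup.isNilpotent_of_ker_le_center f (by rw [(MonoidHom.ker_eq_bot_iff f).mpr hf]; exact bot_le)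

section

variable {G : Type} [Group G]

/-- an abelian subgroup -/
@[reducible] def cg (M : Subgroup G) (hM : ⁅M, M⁆ = ⊥) : CommGroup M :=
  { (inferInstance : Group M) with
    mul_comm := by
      intro x y
      apply Subtype.ext
      have h1 : ⁅(x : G), (y : G)⁆ ∈ (⊥ : Subgroup G) := by
        rw [← hM]
        exact Subgroup.commutator_mem_commutator x.2 y.2
      exact commutatorElement_eq_one_iff_mul_comm.mp (Subgroup.mem_bot.mp h1) }

/-- the action on an abelian normal subgroup -/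
def actM (M : Subgroup G) [M.Normal] (hM : ⁅M, M⁆ = ⊥) : (G ⧸ M) →* MulAut M :=
  QuotientGroup.lift M MulAut.conjNormal (by
    intro x hx
    ext y
    rw [MulAut.conjNormal_apply, MulAut.one_apply]
    have h1 : ⁅x, (y : G)⁆ ∈ (⊥ : Subgroup G) := by
      rw [← hM]
      exact Subgroup.commutator_mem_commutator hx y.2
    have h2 := commutatorElement_eq_one_iff_mul_comm.mp (Subgroup.mem_bot.mp h1)
    rw [h2]
    group)

theorem actM_mk (M : Subgroup G) [M.Normal] (hM : ⁅M, M⁆ = ⊥) (s : G) (y : M) :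
    ((actM M hM (QuotientGroup.mk' M s) y : M) : G) = s * y * s⁻¹ := by
  show ((MulAut.conjNormal s y : M) : G) = _
  rw [MulAut.conjNormal_apply]

theorem conj_iter (M : Subgroup G) [M.Normal] (s : G) (m : ℕ) (y : M) :
    (((fun z : M => MulAut.conjNormal s z)^[m] y : M) : G) = s ^ m * y * (s ^ m)⁻¹ := by
  induction m with
  | zero => simp
  | succ m ih =>
    rw [Function.iterate_succ_apply', MulAut.conjNormal_apply, ih, pow_succ' s m]
    group

/-- conjugation, additively -/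
def ph (M : Subgroup G) [M.Normal] (hM : ⁅M, M⁆ = ⊥) (s : G) :
    letI := cg M hM
    AddMonoid.End (Additive M) :=
  let := cg M hM
  MonoidHom.toAdditive (MulAut.conjNormal s : MulAut M).toMonoidHom

theorem ph_dd (M : Subgroup G) [M.Normal] (hM : ⁅M, M⁆ = ⊥) (s : G) (m k : ℕ) (y : M) :
    letI := cg M hM
    (((fun z : Additive M => ((⇑(ph M hM s))^[m]) z - z)^[k] (Additive.ofMul y)).toMul : G) =
      (dd (s ^ m))^[k] (y : G) := by
  let := cg M hM
  show (((fun z : Additive M => ((⇑(ph M hM s))^[m]) z - z)^[k] (Additive.ofMul y)).toMul : G) = _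
  induction k with
  | zero => rfl
  | succ k ih =>
    rw [Function.iterate_succ_apply', Function.iterate_succ_apply' (dd (s ^ m)), ← ih]
    generalize (fun z : Additive M => ((⇑(ph M hM s))^[m]) z - z)^[k] (Additive.ofMul y) = w
    have h1 : ((((⇑(ph M hM s))^[m]) w).toMul : G) = s ^ m * (w.toMul : G) * (s ^ m)⁻¹ :=
      conj_iter M s m w.toMul
    have h2 : ((((⇑(ph M hM s))^[m]) w - w).toMul : M) =
        w.toMul⁻¹ * (((⇑(ph M hM s))^[m]) w).toMul := by
      rw [toMul_sub, div_eq_mul_inv, mul_comm]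
    show ((((⇑(ph M hM s))^[m]) w - w).toMul : G) = _
    rw [h2, Subgroup.coe_mul, h1]
    rfl

theorem core (hACT : S_ACT) (hEXT : S_EXT) (M : Subgroup G) [M.Normal] (hM : ⁅M, M⁆ = ⊥)
    (a b : G) (hab : Subgroup.closure {a, b} = ⊤)
    (ha : ∀ x ∈ M, ∃ m : ℕ, 0 < m ∧ ∃ k : ℕ, (dd (a ^ m))^[k] x = 1)
    (hb : ∀ x ∈ M, ∃ m : ℕ, 0 < m ∧ ∃ k : ℕ, (dd (b ^ m))^[k] x = 1)
    (hn : Group.IsNilpotent (G ⧸ M)) :
    ∃ m : ℕ, 0 < m ∧ Group.IsNilpotent (Subgroup.closure {a ^ m, b ^ m}) := by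
  classical
  let := cg M hM
  obtain ⟨c, hc1, hcM⟩ := lcs_le_of_quot M hn
  set V := (⊤ : Subgroup G).lowerCentralSeries c with hV
  have hVn : V.Normal := Subgroup.lowerCentralSeries_normal _ _
  -- additive form of the hypotheses
  have hqu : ∀ s : G, (∀ x ∈ M, ∃ m : ℕ, 0 < m ∧ ∃ k : ℕ, (dd (s ^ m))^[k] x = 1) →
      ∀ z : Additive M, ∃ m : ℕ, 0 < m ∧ ∃ k : ℕ,
        (fun z : Additive M => ((⇑(ph M hM s))^[m]) z - z)^[k] z = 0 := by
    intro s hs z
    obtain ⟨m, hm, k, hk⟩ := hs _ z.toMul.2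
    refine ⟨m, hm, k, ?_⟩
    have h1 := ph_dd M hM s m k z.toMul
    rw [hk] at h1
    exact congrArg Additive.ofMul (Subtype.ext h1 :
      ((fun z : Additive M => ((⇑(ph M hM s))^[m]) z - z)^[k] z).toMul = 1)
  -- the action
  let act : DistribMulAction (G ⧸ M) (Additive M) :=
    { smul := fun p z => Additive.ofMul (actM M hM p z.toMul)
      one_smul := fun z => by
        show Additive.ofMul (actM M hM 1 z.toMul) = z
        rw [map_one]; rfl
      mul_smul := fun p q z => by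
        show Additive.ofMul (actM M hM (p * q) z.toMul) = _
        rw [map_mul]; rfl
      smul_zero := fun p => by
        show Additive.ofMul (actM M hM p 1) = _
        rw [map_one]; rfl
      smul_add := fun p x y => by
        show Additive.ofMul (actM M hM p (x.toMul * y.toMul)) = _
        rw [map_mul]; rfl }
  have hsm : ∀ (s : G) (z : Additive M), (QuotientGroup.mk' M s) • z = ph M hM s z := by
    intro s z
    rfl
  have hsm' : ∀ (s : G) (z : Additive M), (QuotientGroup.mk' M s)⁻¹ • z = ph M hM s⁻¹ z := by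
    intro s z
    rw [← map_inv]
    rfl
  have hphi : ∀ (s : G) (z : Additive M), ph M hM s (ph M hM s⁻¹ z) = z := by
    intro s z
    rw [← hsm, ← hsm', smul_inv_smul]
  have hphi' : ∀ (s : G) (z : Additive M), ph M hM s⁻¹ (ph M hM s z) = z := by
    intro s z
    rw [← hsm', ← hsm s, inv_smul_smul]
  have hX : ∀ x ∈ ({QuotientGroup.mk' M a, QuotientGroup.mk' M b} : Set (G ⧸ M)),
      ∀ z : Additive M, ∃ Y : AddSubgroup (Additive M), Y.FG ∧ z ∈ Y ∧
        ∀ y ∈ Y, x • y ∈ Y ∧ x⁻¹ • y ∈ Y := by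
    have h1 : ∀ s : G, (∀ x ∈ M, ∃ m : ℕ, 0 < m ∧ ∃ k : ℕ, (dd (s ^ m))^[k] x = 1) →
        ∀ z : Additive M, ∃ Y : AddSubgroup (Additive M), Y.FG ∧ z ∈ Y ∧
          ∀ y ∈ Y, (QuotientGroup.mk' M s) • y ∈ Y ∧ (QuotientGroup.mk' M s)⁻¹ • y ∈ Y := by
      intro s hs z
      obtain ⟨m, hm, k, hk⟩ := hqu s hs z
      obtain ⟨Y, hY1, hY2, hY3⟩ := orb_fg (ph M hM s) (ph M hM s⁻¹) (hphi s) (hphi' s) m k hm z hk
      refine ⟨Y, hY1, hY2, fun y hy => ?_⟩
      rw [hsm, hsm']
      exact hY3 y hy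
    rintro x (rfl | rfl)
    · exact h1 a ha
    · exact h1 b hb
  have hXc : Subgroup.closure ({QuotientGroup.mk' M a, QuotientGroup.mk' M b} : Set (G ⧸ M)) = ⊤ := by
    have h1 : ({QuotientGroup.mk' M a, QuotientGroup.mk' M b} : Set (G ⧸ M)) =
        (QuotientGroup.mk' M) '' {a, b} := by
      rw [Set.image_pair]
    rw [h1, ← MonoidHom.map_closure, hab, ← MonoidHom.range_eq_map,
      MonoidHom.range_eq_top.mpr (QuotientGroup.mk'_surjective M)]
  have hAct := hACT (G ⧸ M) (Additive M) hn _ (Set.toFinite _) hXc hX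
  -- `V` is finitely generated
  obtain ⟨F, hF, hFV⟩ := lcs_nfg {a, b} (Set.toFinite _) hab c
  rw [← hV] at hFV
  have hFM : ∀ f ∈ F, f ∈ M := fun f hf => hcM (by rw [hFV]; exact Subgroup.subset_normalClosure hf)
  have h1 : ∀ f : F, ∃ Y : AddSubgroup (Additive M), Y.FG ∧
      Additive.ofMul (⟨f, hFM f f.2⟩ : M) ∈ Y ∧ ∀ p : G ⧸ M, ∀ y ∈ Y, p • y ∈ Y :=
    fun f => hAct _
  choose Y hY1 hY2 hY3 using h1
  have : Finite F := hF
  set Z := ⨆ f, Y f with hZ
  have hZfg : Z.FG := by
    choose s hs using hY1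
    refine ⟨(Set.finite_iUnion fun f => (s f).finite_toSet).toFinset, ?_⟩
    rw [Set.Finite.coe_toFinset, AddSubgroup.closure_iUnion, hZ]
    exact iSup_congr hs
  have hZinv : ∀ p : G ⧸ M, ∀ y ∈ Z, p • y ∈ Z := by
    intro p
    have h3 : Z ≤ Z.comap (DistribSMul.toAddMonoidHom (Additive M) p) := by
      apply iSup_le
      intro f y hy
      exact (le_iSup Y f) (hY3 f p y hy)
    exact fun y hy => h3 hy
  set Z1 : Subgroup M := Subgroup.toAddSubgroup.symm Z with hZ1
  have hZ1fg : Z1.FG := by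
    rw [Subgroup.fg_iff_add_fg, hZ1, OrderIso.apply_symm_apply]
    exact hZfg
  set Z2 : Subgroup G := Z1.map M.subtype with hZ2
  have hZ2n : Z2.Normal := by
    constructor
    rintro _ ⟨z, hz, rfl⟩ s
    refine ⟨actM M hM (QuotientGroup.mk' M s) z, ?_, actM_mk M hM s z⟩
    exact hZinv (QuotientGroup.mk' M s) (Additive.ofMul z) hz
  have hVZ : V ≤ Z2 := by
    rw [hFV]
    apply Subgroup.normalClosure_le_normal
    intro f hf
    exact ⟨⟨f, hFM f hf⟩, (le_iSup Y ⟨f, hf⟩) (hY2 ⟨f, hf⟩), rfl⟩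
  have hZ2M : Z2 ≤ M := by
    rintro _ ⟨z, hz, rfl⟩
    exact z.2
  have hZ2fg : Group.FG Z2 := by
    have : Group.FG Z1 := (Group.fg_iff_subgroup_fg Z1).mpr hZ1fg
    exact Group.fg_of_surjective (f := M.subtype.subgroupMap Z1)
      (MonoidHom.subgroupMap_surjective M.subtype Z1)
  have hZ2nil : Group.IsNilpotent Z2 := by
    refine Subgroup.isNilpotent_of_lowerCentralSeries_eq_bot (n := 1) ?_
    rw [Subgroup.lowerCentralSeries_succ, Subgroup.lowerCentralSeries_zero, eq_bot_iff, ← hM]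
    exact Subgroup.commutator_mono hZ2M hZ2M
  have hZ2max : MaxC Z2 := Pool.Agent.H53R2.nil_maxC Z2
  have hVmax : MaxC V := hZ2max.of_injective (Subgroup.inclusion hVZ) (Subgroup.inclusion_injective hVZ)
  have hGfg : Group.FG G := by
    rw [Group.fg_iff]
    exact ⟨{a, b}, hab, Set.toFinite _⟩
  have hQnil : Group.IsNilpotent (G ⧸ V) := by
    rw [Subgroup.nilpotent_iff_lowerCentralSeries]
    refine ⟨c, ?_⟩
    rw [← MonoidHom.range_eq_top.mpr (QuotientGroup.mk'_surjective V), MonoidHom.range_eq_map,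
      ← Subgroup.map_lowerCentralSeries, ← hV, Subgroup.map_eq_bot_iff, QuotientGroup.ker_mk']
  have hGmax : MaxC G := hEXT G V hVmax (Pool.Agent.H53R2.nil_maxC (G ⧸ V))
  -- the chain
  set N : ℕ → Subgroup G := fun i => if i ≤ c then (⊤ : Subgroup G).lowerCentralSeries i else ⊥ with hN
  have hN1 : ∀ i, i ≤ c → N i = (⊤ : Subgroup G).lowerCentralSeries i := fun i hi => if_pos hi
  have hN2 : ∀ i, c < i → N i = ⊥ := fun i hi => if_neg (by omega)
  have hNn : ∀ i, (N i).Normal := by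
    intro i
    rcases Nat.lt_or_ge c i with h | h
    · rw [hN2 i h]; infer_instance
    · rw [hN1 i h]; exact Subgroup.lowerCentralSeries_normal _ _
  have hd1 : ∀ (s x : G) (i : ℕ), x ∈ (⊤ : Subgroup G).lowerCentralSeries i →
      x⁻¹ * (s * x * s⁻¹) ∈ (⊤ : Subgroup G).lowerCentralSeries (i + 1) := by
    intro s x i hx
    have e : x⁻¹ * (s * x * s⁻¹) = ⁅x⁻¹, s⁆ := by
      rw [commutatorElement_def]; group
    rw [e, Subgroup.lowerCentralSeries_succ]
    exact Subgroup.commutator_mem_commutator (Subgroup.inv_mem _ hx) (Subgroup.mem_top s)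
  have main : ∀ s : G, (∀ x ∈ M, ∃ m : ℕ, 0 < m ∧ ∃ k : ℕ, (dd (s ^ m))^[k] x = 1) →
      ∃ m : ℕ, 0 < m ∧ ∃ Fs : Subgroup G, Fs.Normal ∧ Group.IsNilpotent Fs ∧ s ^ m ∈ Fs := by
    intro s hs
    obtain ⟨m, hm, k, hk⟩ := unif (ph M hM s) Z hZfg (fun z _ => hqu s hs z)
    refine ⟨m, hm, ?_⟩
    apply gr2 G hGmax (s ^ m) N (c + 1) (by omega) hNn
    · rw [hN1 0 (by omega), Subgroup.lowerCentralSeries_zero]
    · exact hN2 _ (by omega)
    · intro i
      rcases Nat.lt_or_ge c (i + 1) with h | h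
      · rw [hN2 _ h]; exact bot_le
      · rw [hN1 _ h, hN1 i (by omega)]
        exact Subgroup.lowerCentralSeries_antitone _ (Nat.le_succ i)
    · intro x
      rw [hN1 1 hc1]
      exact hd1 _ _ 0 (Subgroup.mem_top x)
    · intro i hi
      rcases Nat.lt_trichotomy i c with h | h | h
      · rw [hN1 i (by omega), hN1 (i + 1) (by omega), Subgroup.lowerCentralSeries_succ]
        exact Subgroup.commutator_mono le_rfl le_top
      · rw [hN1 i (by omega), hN2 (i + 1) (by omega), h, ← hM]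
        exact Subgroup.commutator_mono hcM hcM
      · rw [hN2 i h]
        exact (Subgroup.commutator_le_left _ _).trans bot_le
    · intro i hi
      rcases Nat.lt_trichotomy i c with h | h | h
      · refine ⟨1, fun x hx => ?_⟩
        rw [hN1 i (by omega)] at hx
        rw [hN1 (i + 1) (by omega)]
        exact hd1 _ _ i hx
      · refine ⟨k, fun x hx => ?_⟩
        rw [hN1 i (by omega), h] at hx
        obtain ⟨z, hz, rfl⟩ := hVZ hx
        have h2 := hk (Additive.ofMul z) hz
        have h3 := ph_dd M hM s m k z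
        rw [hN2 (i + 1) (by omega), Subgroup.mem_bot]
        show (dd (s ^ m))^[k] (z : G) = 1
        rw [← h3, h2]
        rfl
      · refine ⟨0, fun x hx => ?_⟩
        rw [hN2 i h] at hx
        rw [hN2 (i + 1) (by omega)]
        exact hx
  obtain ⟨ma, hma, Fa, hFan, hFanil, hFa⟩ := main a ha
  obtain ⟨mb, hmb, Fb, hFbn, hFbnil, hFb⟩ := main b hb
  refine ⟨ma * mb, Nat.mul_pos hma hmb, ?_⟩
  have hfit := fitting Fa Fb hFanil hFbnil
  have hle : Subgroup.closure {a ^ (ma * mb), b ^ (ma * mb)} ≤ Fa ⊔ Fb := by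
    rw [Subgroup.closure_le]
    rintro x (rfl | rfl)
    · rw [pow_mul]
      exact Subgroup.mem_sup_left (Fa.pow_mem hFa _)
    · rw [mul_comm ma mb, pow_mul]
      exact Subgroup.mem_sup_right (Fb.pow_mem hFb _)
  exact nil_of_inj (Subgroup.inclusion hle) (Subgroup.inclusion_injective hle) hfit

end

/-- package STEP -/
theorem step (hACT : S_ACT) (hEXT : S_EXT) : S_STEP := by
  intro S _ M hMn hM a b ha hb hnil
  set W := Subgroup.closure {a, b} with hW
  have haW : a ∈ W := Subgroup.subset_closure (by simp)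
  have hbW : b ∈ W := Subgroup.subset_closure (by simp)
  set M' := M.subgroupOf W with hM'
  have hM'n : M'.Normal := Subgroup.Normal.subgroupOf hMn W
  have hM'a : ⁅M', M'⁆ = ⊥ := by
    rw [eq_bot_iff, Subgroup.commutator_le]
    intro x hx y hy
    have h1 : ⁅(x : S), (y : S)⁆ ∈ (⊥ : Subgroup S) := by
      rw [← hM]
      exact Subgroup.commutator_mem_commutator hx hy
    exact Subgroup.mem_bot.mpr (Subtype.ext (Subgroup.mem_bot.mp h1))
  have hcl : Subgroup.closure {(⟨a, haW⟩ : W), ⟨b, hbW⟩} = ⊤ := by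
    apply Subgroup.map_injective W.subtype_injective
    rw [MonoidHom.map_closure, Set.image_pair, ← MonoidHom.range_eq_map, Subgroup.range_subtype]
    exact hW.symm
  have hdd : ∀ (s x : W) (m k : ℕ), (((dd (s ^ m))^[k] x : W) : S) = (dd ((s : S) ^ m))^[k] (x : S) := by
    intro s x m k
    induction k with
    | zero => rfl
    | succ k ih =>
      rw [Function.iterate_succ_apply', Function.iterate_succ_apply' (dd ((s : S) ^ m)), ← ih]
      simp [dd]
  have hq : Group.IsNilpotent (W ⧸ M') := by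
    let f : W →* (W.map (QuotientGroup.mk' M)) := (QuotientGroup.mk' M).subgroupMap W
    have hk : M' = f.ker := by
      ext x
      rw [MonoidHom.mem_ker]
      constructor
      · intro hx
        exact Subtype.ext ((QuotientGroup.eq_one_iff _).mpr hx)
      · intro hx
        exact (QuotientGroup.eq_one_iff (x : S)).mp (congrArg Subtype.val hx)
    exact nil_of_inj ((QuotientGroup.kerLift f).comp (QuotientGroup.quotientMulEquivOfEq hk).toMonoidHom)
      ((QuotientGroup.kerLift_injective f).comp (MulEquiv.injective _)) hnil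
  obtain ⟨m, hm, h⟩ := core (G := W) hACT hEXT M' hM'a ⟨a, haW⟩ ⟨b, hbW⟩ hcl
    (by
      intro x hx
      obtain ⟨m, hm, k, hk⟩ := ha x hx
      exact ⟨m, hm, k, Subtype.ext (by rw [hdd]; exact hk)⟩)
    (by
      intro x hx
      obtain ⟨m, hm, k, hk⟩ := hb x hx
      exact ⟨m, hm, k, Subtype.ext (by rw [hdd]; exact hk)⟩) hq
  refine ⟨m, hm, ?_⟩
  have h2 : Subgroup.closure {a ^ m, b ^ m} =
      (Subgroup.closure {(⟨a, haW⟩ : W) ^ m, ⟨b, hbW⟩ ^ m}).map W.subtype := by
    rw [MonoidHom.map_closure, Set.image_pair]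
    rfl
  rw [h2]
  exact Group.nilpotent_of_surjective (h := h) _ (MonoidHom.subgroupMap_surjective W.subtype _)

end Pool.Agent.P8H94.PG
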