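import Pool.Agent.P8H24.PG.Stm2
import Pool.Agent.H53R2.FinNil

/-!
# PG/STEP, part 1: general lemmas
-/

set_option autoImplicit false

namespace Pool.Agent.P8H94.PG

open scoped commutatorElement

/-- the terms of the lower central series are finitely generated as normal subgroups -/
theorem lcs_nfg {G : Type} [Group G] (X : Set G) (hX : X.Finite) (hc : Subgroup.closure X = ⊤)
    (n : ℕ) : ∃ F : Set G, F.Finite ∧ (⊤ : Subgroup G).lowerCentralSeries n = Subgroup.normalClosure F := by
  induction n with
  | zero =>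
    refine ⟨X, hX, ?_⟩
    rw [Subgroup.lowerCentralSeries_zero]
    refine le_antisymm ?_ le_top
    rw [← hc]
    exact Subgroup.closure_le_normalClosure
  | succ n ih =>
    obtain ⟨F, hF, hFe⟩ := ih
    refine ⟨Set.image2 (fun f x => ⁅f, x⁆) F X, hF.image2 _ hX, ?_⟩
    rw [Subgroup.lowerCentralSeries_succ]
    apply le_antisymm
    · set N := Subgroup.normalClosure (Set.image2 (fun f x => ⁅f, x⁆) F X) with hN
      have hNn : N.Normal := Subgroup.normalClosure_normal
      rw [hFe]
      have key : Subgroup.normalClosure F ≤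
          (Subgroup.center (G ⧸ N)).comap (QuotientGroup.mk' N) := by
        apply Subgroup.normalClosure_le_normal
        intro f hf
        rw [SetLike.mem_coe, Subgroup.mem_comap, Subgroup.mem_center_iff]
        intro g
        obtain ⟨g, rfl⟩ := QuotientGroup.mk'_surjective N g
        have h1 : (⊤ : Subgroup G) ≤
            (Subgroup.centralizer {QuotientGroup.mk' N f}).comap (QuotientGroup.mk' N) := by
          rw [← hc, Subgroup.closure_le]
          intro x hx
          rw [SetLike.mem_coe, Subgroup.mem_comap, Subgroup.mem_centralizer_singleton_iff]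
          have h2 : ⁅f, x⁆ ∈ N := Subgroup.subset_normalClosure ⟨f, hf, x, hx, rfl⟩
          have h3 : ⁅QuotientGroup.mk' N f, QuotientGroup.mk' N x⁆ = 1 := by
            rw [← map_commutatorElement]
            exact (QuotientGroup.eq_one_iff _).mpr h2
          exact (commutatorElement_eq_one_iff_mul_comm.mp h3).symm
        have h2 := h1 (Subgroup.mem_top g)
        rw [Subgroup.mem_comap, Subgroup.mem_centralizer_singleton_iff] at h2
        exact h2
      rw [Subgroup.commutator_le]
      intro x hx y _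
      have h1 := key hx
      rw [Subgroup.mem_comap, Subgroup.mem_center_iff] at h1
      have h2 : ⁅QuotientGroup.mk' N x, QuotientGroup.mk' N y⁆ = 1 :=
        commutatorElement_eq_one_iff_mul_comm.mpr (h1 _).symm
      rw [← map_commutatorElement] at h2
      exact (QuotientGroup.eq_one_iff _).mp h2
    · have hn : (⁅(⊤ : Subgroup G).lowerCentralSeries n, ⊤⁆ : Subgroup G).Normal :=
        Subgroup.commutator_normal _ _
      apply Subgroup.normalClosure_le_normal
      rintro _ ⟨f, hf, x, hx, rfl⟩
      refine Subgroup.commutator_mem_commutator ?_ (Subgroup.mem_top x)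
      rw [hFe]
      exact Subgroup.subset_normalClosure hf

/-- nilpotency modulo `M` -/
theorem lcs_le_of_quot {G : Type} [Group G] (M : Subgroup G) [M.Normal]
    (h : Group.IsNilpotent (G ⧸ M)) : ∃ c : ℕ, 1 ≤ c ∧ (⊤ : Subgroup G).lowerCentralSeries c ≤ M := by
  rw [Subgroup.nilpotent_iff_lowerCentralSeries] at h
  obtain ⟨c, hc⟩ := h
  refine ⟨c + 1, by omega, ?_⟩
  refine (Subgroup.lowerCentralSeries_antitone _ (Nat.le_succ c)).trans ?_
  have h1 : ((⊤ : Subgroup G).lowerCentralSeries c).map (QuotientGroup.mk' M) = ⊥ := by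
    rw [Subgroup.map_lowerCentralSeries, ← MonoidHom.range_eq_map,
      MonoidHom.range_eq_top.mpr (QuotientGroup.mk'_surjective M), hc]
  rwa [Subgroup.map_eq_bot_iff, QuotientGroup.ker_mk'] at h1

/-- quasi-unipotent elements lie in finitely generated invariant subgroups -/
theorem orb_fg {A : Type} [AddCommGroup A] (f g : A →+ A) (hfg : ∀ x, f (g x) = x)
    (hgf : ∀ x, g (f x) = x) (m k : ℕ) (hm : 0 < m) (z : A)
    (h : (fun y => (f^[m]) y - y)^[k] z = 0) :
    ∃ Y : AddSubgroup A, Y.FG ∧ z ∈ Y ∧ ∀ y ∈ Y, f y ∈ Y ∧ g y ∈ Y := by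
  set d : A → A := fun y => (f^[m]) y - y with hd
  have hfi : ∀ n : ℕ, ∃ F : A →+ A, ∀ x, F x = f^[n] x := by
    intro n
    induction n with
    | zero => exact ⟨AddMonoidHom.id A, fun x => rfl⟩
    | succ n ih =>
      obtain ⟨F, hF⟩ := ih
      exact ⟨F.comp f, fun x => by rw [AddMonoidHom.comp_apply, hF, Function.iterate_succ_apply]⟩
  have hinv : ∀ n : ℕ, ∀ x, g (f^[n + 1] x) = f^[n] x := by
    intro n x
    rw [Function.iterate_succ_apply', hgf]
  have hz0 : ∀ n ≥ k, d^[n] z = 0 := by
    intro n hn
    obtain ⟨F, hF⟩ := hfi m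
    induction n, hn using Nat.le_induction with
    | base => exact h
    | succ n hn ih =>
      rw [Function.iterate_succ_apply', ih, hd]
      show f^[m] 0 - 0 = 0
      rw [← hF, map_zero, sub_zero]
  set T : Set A := Set.image2 (fun j i => f^[j] (d^[i] z)) (Set.Iio m) (Set.Iio (k + 1)) with hT
  have hTf : T.Finite := (Set.finite_Iio m).image2 _ (Set.finite_Iio (k + 1))
  set Y := AddSubgroup.closure T with hY
  have hmem : ∀ i j, j < m → f^[j] (d^[i] z) ∈ Y := by
    intro i j hj
    by_cases hi : i < k + 1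
    · exact AddSubgroup.subset_closure ⟨j, hj, i, hi, rfl⟩
    · rw [hz0 i (by omega)]
      obtain ⟨F, hF⟩ := hfi j
      rw [← hF, map_zero]
      exact Y.zero_mem
  have hmemm : ∀ i, f^[m] (d^[i] z) ∈ Y := by
    intro i
    have h1 : f^[m] (d^[i] z) = d^[i + 1] z + d^[i] z := by
      rw [Function.iterate_succ_apply' d, hd]
      simp
    rw [h1]
    exact Y.add_mem (hmem (i + 1) 0 hm) (hmem i 0 hm)
  have hg : ∀ n i, k ≤ i + n → g (d^[i] z) ∈ Y := by
    intro n
    induction n with
    | zero =>
      intro i hi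
      rw [hz0 i (by omega), map_zero]
      exact Y.zero_mem
    | succ n ih =>
      intro i hi
      have h1 := ih (i + 1) (by omega)
      have h2 : g (d^[i] z) = f^[m - 1] (d^[i] z) - g (d^[i + 1] z) := by
        rw [Function.iterate_succ_apply' d]
        show g (d^[i] z) = f^[m - 1] (d^[i] z) - g (f^[m] (d^[i] z) - d^[i] z)
        have h3 : g (f^[m] (d^[i] z)) = f^[m - 1] (d^[i] z) := by
          have := hinv (m - 1) (d^[i] z)
          rwa [Nat.sub_add_cancel hm] at this
        rw [map_sub, h3]
        abel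
      rw [h2]
      exact Y.sub_mem (hmem i (m - 1) (by omega)) h1
  refine ⟨Y, ⟨hTf.toFinset, by rw [Set.Finite.coe_toFinset]⟩, hmem 0 0 hm, ?_⟩
  have hfY : Y ≤ Y.comap f := by
    rw [hY, AddSubgroup.closure_le]
    rintro _ ⟨j, hj, i, hi, rfl⟩
    rw [SetLike.mem_coe, AddSubgroup.mem_comap, ← Function.iterate_succ_apply' f]
    rcases Nat.lt_or_ge (j + 1) m with h1 | h1
    · exact hmem i (j + 1) h1
    · have h2 : j.succ = m := by
        have : j < m := hj
        omega
      rw [h2]
      exact hmemm i
  have hgY : Y ≤ Y.comap g := by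
    rw [hY, AddSubgroup.closure_le]
    rintro _ ⟨j, hj, i, hi, rfl⟩
    rw [SetLike.mem_coe, AddSubgroup.mem_comap]
    cases j with
    | zero => exact hg k i (by omega)
    | succ j =>
      show g (f^[j + 1] (d^[i] z)) ∈ Y
      rw [hinv]
      exact hmem i j (by have : j + 1 < m := hj; omega)
  exact fun y hy => ⟨hfY hy, hgY hy⟩

end Pool.Agent.P8H94.PG
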