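import Pool.Agent.P8H94.PG.Step1

/-!
# PG/STEP, part 2: uniform exponents
-/

set_option autoImplicit false

namespace Pool.Agent.P8H94.PG

open scoped commutatorElement

theorem pow_sub_iter {A : Type} [AddCommGroup A] (φ : AddMonoid.End A) (m k : ℕ) (x : A) :
    (fun y : A => ((⇑φ)^[m]) y - y)^[k] x = ((φ ^ m - 1) ^ k) x := by
  rw [AddMonoid.End.coe_pow]
  congr 1
  

theorem dvd_apply {A : Type} [AddCommGroup A] (φ : AddMonoid.End A) {m k m' k' : ℕ} (hm : m ∣ m')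
    (hk : k ≤ k') (x : A) (h : ((φ ^ m - 1) ^ k) x = 0) : ((φ ^ m' - 1) ^ k') x = 0 := by
  have h1 : ((Polynomial.X : Polynomial ℤ) ^ m - 1) ^ k ∣ (Polynomial.X ^ m' - 1) ^ k' := by
    refine (pow_dvd_pow_of_dvd ?_ k).trans (pow_dvd_pow _ hk)
    obtain ⟨r, rfl⟩ := hm
    have := sub_dvd_pow_sub_pow ((Polynomial.X : Polynomial ℤ) ^ m) 1 r
    rwa [← pow_mul, one_pow] at this
  obtain ⟨R, hR⟩ := h1
  rw [mul_comm] at hR
  have h2 := congrArg (Polynomial.aeval φ) hR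
  simp only [map_mul, map_pow, map_sub, map_one, Polynomial.aeval_X] at h2
  rw [h2]
  show (Polynomial.aeval φ R) (((φ ^ m - 1) ^ k) x) = 0
  rw [h, map_zero]

theorem unif {A : Type} [AddCommGroup A] (φ : AddMonoid.End A) (V : AddSubgroup A) (hV : V.FG)
    (h : ∀ x ∈ V, ∃ m : ℕ, 0 < m ∧ ∃ k : ℕ, (fun y : A => ((⇑φ)^[m]) y - y)^[k] x = 0) :
    ∃ m : ℕ, 0 < m ∧ ∃ k : ℕ, ∀ x ∈ V, (fun y : A => ((⇑φ)^[m]) y - y)^[k] x = 0 := by
  classical
  obtain ⟨s, hs⟩ := hV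
  simp only [pow_sub_iter] at h ⊢
  have h1 : ∀ x ∈ s, ∃ m : ℕ, 0 < m ∧ ∃ k : ℕ, ((φ ^ m - 1) ^ k) x = 0 := by
    intro x hx
    apply h
    rw [← hs]
    exact AddSubgroup.subset_closure hx
  choose! m hm k hk using h1
  refine ⟨∏ x ∈ s, m x, Finset.prod_pos hm, ∑ x ∈ s, k x, ?_⟩
  intro x hx
  rw [← hs] at hx
  induction hx using AddSubgroup.closure_induction with
  | mem x hx =>
    exact dvd_apply φ (Finset.dvd_prod_of_mem m hx)
      (Finset.single_le_sum (f := k) (fun _ _ => Nat.zero_le _) hx) x (hk x hx)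
  | zero => rw [map_zero]
  | add x y _ _ hx hy => rw [map_add, hx, hy, add_zero]
  | neg x _ hx => rw [map_neg, hx, neg_zero]

end Pool.Agent.P8H94.PG
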